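import Pool.Agent.R799.MutBlock

/-!
# `n` is not invariant under mutation

`V = !![5, 1; 2, 9]` is a Seifert matrix of a knot `K` (for instance of the pretzel knot
`P(7, 3, 15)` or its mirror image), since `det (V - Vᵀ) = 1`. The knots `K # K` and `K # rK`
(`rK` is `K` with the opposite orientation) are mutants of each other, and they have the Seifert
matrices `V ⊕ V` and `V ⊕ Vᵀ`.
-/

namespace Pool.Agent.Results.MP_9d46ca_gt.NotMutationInvariant

open Pool.Agent.R799 Matrix

/-- `n(V ⊕ Vᵀ) = 2` and `n(V ⊕ V) ≥ 3` for the Seifert matrix `V = !![5, 1; 2, 9]`. -/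
theorem result (V : Matrix (Fin 2) (Fin 2) ℤ) (hV : V = !![5, 1; 2, 9]) :
    (V - Vᵀ).det = 1 ∧ nInv (Matrix.fromBlocks V 0 0 Vᵀ) = 2 ∧
      3 ≤ nInv (Matrix.fromBlocks V 0 0 V) := by
  subst hV
  exact ⟨by decide, nInv_block_R, nInv_block_K⟩

end Pool.Agent.Results.MP_9d46ca_gt.NotMutationInvariant
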